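import Pool.Agent.Work.MP_64ea0f_cs.InterfaceA

set_option autoImplicit false

/-! # INT: integrality of the entries `2 * kf m` -/

namespace Pool.CS.H31

/-- each entry is an algebraic integer -/
theorem isIntegral_two_kf (m : ℕ) : IsIntegral ℤ (2 * kf m) := by
  unfold kf
  split_ifs with h
  · have h4 : (2 * (-2) : ℝ) = ((-4 : ℤ) : ℝ) := by norm_num
    rw [h4]
    exact isIntegral_algebraMap
  · have h1 : (2 * -Real.cos (Real.pi / m) : ℝ)
        = -(2 * Real.cos (((1 / m : ℚ) : ℝ) * Real.pi)) := by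
      have : (((1 / m : ℚ) : ℝ) * Real.pi) = Real.pi / m := by
        push_cast
        ring
      rw [this]
      ring
    rw [h1]
    exact (Real.isIntegral_two_mul_cos_rat_mul_pi (1 / m : ℚ)).neg

end Pool.CS.H31

namespace Pool.CS

theorem int_thm : Stmt_INT := by
  intro S _ M
  let T : Set ℝ := Set.range fun p : S × S => 2 * kf (M p.1 p.2)
  have hT : T.Finite := Set.finite_range _
  have hI : ∀ x ∈ T, IsIntegral ℤ x := by
    rintro x ⟨p, rfl⟩
    exact H31.isIntegral_two_kf _
  have hF : Module.Finite ℤ (Algebra.adjoin ℤ T) :=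
    Algebra.finite_adjoin_of_finite_of_isIntegral hT hI
  refine ⟨(Algebra.adjoin ℤ T).toSubring, hF, fun s t => ?_⟩
  exact Algebra.subset_adjoin (show 2 * kf (M s t) ∈ T from ⟨(s, t), rfl⟩)

end Pool.CS
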