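import Pool.Agent.Work.MP_64ea0f_cs.InterfaceA

set_option autoImplicit false

/-! # RDX: the root system of a Coxeter matrix -/

namespace Pool.CS.H31

/-- a simple reflection of the Coxeter system of `M` -/
theorem simple_eq {S : Type} (M : CoxeterMatrix S) (s : S) :
    M.toCoxeterSystem.simple s = M.simple s := by
  rw [M.toCoxeterSystem_simple]

/-- a representation of a group in endomorphisms is injective -/
theorem rho_inj {S : Type} {G : Type} [Group G] (ρ : G →* Module.End ℝ (S → ℝ)) (w : G)
    (v : S → ℝ) (h : ρ w v = 0) : v = 0 := by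
  have h1 : ρ w⁻¹ (ρ w v) = v := by
    have h2 : ρ w⁻¹ * ρ w = 1 := by rw [← map_mul, inv_mul_cancel, map_one]
    have h3 := congrArg (fun f : Module.End ℝ (S → ℝ) => f v) h2
    exact h3
  rw [h, map_zero] at h1
  exact h1.symm

end Pool.CS.H31

namespace Pool.CS

theorem rdx_thm : Stmt_GREP → Stmt_POS → Stmt_RDX := by
  intro hG hP S _ _ M
  obtain ⟨ρ, hρ⟩ := hG S M
  refine ⟨ρ, hρ, ?_, ?_, ?_⟩
  · have h := M.toCoxeterSystem.subgroup_closure_range_simple
    have h1 : (M.toCoxeterSystem.simple : S → M.Group) = M.simple :=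
      funext fun s => H31.simple_eq M s
    rw [h1] at h
    exact h
  · intro w s
    have h := hP S M ρ hρ w s
    have hne := M.toCoxeterSystem.length_mul_simple_ne w s
    rw [H31.simple_eq] at hne
    rcases lt_or_gt_of_ne hne with h1 | h1
    · exact Or.inr (h.2 h1)
    · exact Or.inl (h.1 h1)
  · intro w hw
    by_contra hne
    obtain ⟨s, hs⟩ := M.toCoxeterSystem.exists_rightDescent_of_ne_one hne
    have hs' : M.toCoxeterSystem.length (w * M.simple s) < M.toCoxeterSystem.length w := by
      have := hs
      unfold CoxeterSystem.IsRightDescent at this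
      rwa [H31.simple_eq] at this
    have h0 : ρ w (Pi.single s 1) = 0 := by
      funext t
      exact le_antisymm ((hP S M ρ hρ w s).2 hs' t) (hw s t)
    have h1 := H31.rho_inj ρ w _ h0
    have h2 := congrFun h1 s
    rw [Pi.single_eq_same] at h2
    exact one_ne_zero h2

end Pool.CS
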