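import Pool.Agent.Work.MP_64ea0f_cs.InterfaceE
import Pool.Agent.Work.MP_64ea0f_cs_helper53.LSX

set_option autoImplicit false

/-! # YJ5: an element of finite order of `NJ J` fixes a cube of `YJ J` -/

namespace Pool.CS

namespace YJ5

open LSX

variable {D : Rd}

/-- changing the signs of some pairwise crossing minimal roots -/
theorem flips (h1 : Stmt_VX1) (h2 : Stmt_VX2) (h3 : Stmt_VX3) (Φ : Set D.V)
    (hΦ : ∀ φ ∈ Φ, ∀ ψ ∈ Φ, ψ ≠ φ → ψ ≠ -φ → |D.B φ ψ| < 1) (hneg : ∀ φ ∈ Φ, -φ ∈ Φ)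
    (x : Set D.V) (hx : D.Vx x) (hm : ∀ φ ∈ Φ, φ ∈ x → D.Mn x φ) (T : Finset D.V) :
    (∀ φ ∈ T, φ ∈ Φ ∧ φ ∈ x) →
    ∃ y, D.Vx y ∧ (∀ φ ∈ Φ, φ ∈ y → D.Mn y φ) ∧ (∀ φ, φ ∉ Φ → (φ ∈ y ↔ φ ∈ x)) ∧
      (∀ φ ∈ T, -φ ∈ y) ∧ (∀ φ ∈ Φ, φ ∈ x → φ ∉ T → φ ∈ y) := by
  classical
  obtain ⟨_, _, _, _, _, _, _, _, hng, _, _⟩ := h1 D
  induction T using Finset.induction_on with
  | empty =>
    intro _
    exact ⟨x, hx, hm, fun _ _ => Iff.rfl, fun φ hφ => absurd hφ (Finset.notMem_empty φ),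
      fun _ _ h _ => h⟩
  | insert φ T hφT ih =>
    intro hT
    obtain ⟨y, hy1, hy2, hy3, hy4, hy5⟩ := ih (fun ψ hψ => hT ψ (Finset.mem_insert_of_mem hψ))
    obtain ⟨hφΦ, hφx⟩ := hT φ (Finset.mem_insert_self φ T)
    have hφy : φ ∈ y := hy5 φ hφΦ hφx hφT
    have hφm : D.Mn y φ := hy2 φ hφΦ hφy
    obtain ⟨v1, v2, v3, v4, v5⟩ := h2 D y hy1 φ hφm
    refine ⟨D.fl y φ, v1, ?_, ?_, ?_, ?_⟩
    · intro ψ hψ hψy
      rcases Set.mem_insert_iff.mp hψy with h | h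
      · rw [h]
        exact v2
      · have hψm := hy2 ψ hψ h.1
        have e1 : ψ ≠ φ := fun h' => h.2 h'
        have e2 : ψ ≠ -φ := fun h' => hng y hy1 φ hφy (h' ▸ h.1)
        exact ((h3 D y hy1 φ ψ).2.1 hφm hψm (hΦ φ hφΦ ψ hψ e1 e2)).1
    · intro ψ hψ
      rw [← hy3 ψ hψ]
      have e1 : ψ ≠ φ := fun h' => hψ (h' ▸ hφΦ)
      have e2 : ψ ≠ -φ := fun h' => hψ (h' ▸ hneg φ hφΦ)
      constructor
      · intro h
        rcases Set.mem_insert_iff.mp h with h | h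
        · exact absurd h e2
        · exact h.1
      · intro h
        exact Set.mem_insert_of_mem _ ⟨h, e1⟩
    · intro ψ hψ
      rcases Finset.mem_insert.mp hψ with h | h
      · rw [h]
        exact Set.mem_insert _ _
      · refine Set.mem_insert_of_mem _ ⟨hy4 ψ h, fun h' => ?_⟩
        have h'' : -ψ = φ := h'
        refine hng x hx ψ (hT ψ hψ).2 ?_
        rw [h'']
        exact hφx
    · intro ψ hψ hψx hψT
      have e1 : ψ ≠ φ := fun h' => hψT (h' ▸ Finset.mem_insert_self φ T)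
      exact Set.mem_insert_of_mem _
        ⟨hy5 ψ hψ hψx (fun h => hψT (Finset.mem_insert_of_mem h)), e1⟩

theorem In_neg {J : Set D.S} {v : D.V} (h : D.In J v) : D.In J (-v) := by
  intro s hs
  rw [Pi.neg_apply, h s hs, neg_zero]

theorem In_neg_iff {J : Set D.S} {v : D.V} : D.In J (-v) ↔ D.In J v := by
  refine ⟨fun h => ?_, In_neg⟩
  have := In_neg h
  rwa [neg_neg] at this

theorem In_par (hP : Stmt_PAR) {K : Set D.S} {w : D.W} (hw : w ∈ D.par K) {v : D.V}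
    (h : D.In K v) : D.In K (D.ρ w v) := by
  have h1 := (hP D K).2.2.1 w hw v
  intro s hs
  have h2 := h1 s hs
  rw [Pi.sub_apply, h s hs, sub_zero] at h2
  exact h2

theorem nj_inv {J : Set D.S} {n : D.W} (hn : n ∈ D.NJ J) : n⁻¹ ∈ D.NJ J := by
  intro φ
  have h := hn (D.ρ n⁻¹ φ)
  rw [ρ_inv'] at h
  exact h.symm

/-- the subgroup generated by `par J` and an element of finite order of `NJ J` is finite -/
theorem finite_sup (hN : Stmt_NRM) {J : Set D.S} (hJ : Finite (D.par J)) {n : D.W}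
    (hn : n ∈ D.NJ J) (hk : ∃ k : ℕ, 0 < k ∧ n ^ k = 1) :
    Finite (Subgroup.zpowers n ⊔ D.par J : Subgroup D.W) := by
  have h1 := (hN D J).2.2.1 n hn
  have h2 : n ∈ Subgroup.normalizer (D.par J : Set D.W) :=
    Subgroup.mem_normalizer_iff_map_conj_eq.mpr h1
  have h3 : Subgroup.zpowers n ≤ Subgroup.normalizer (D.par J : Set D.W) := by
    rw [Subgroup.zpowers_le]
    exact h2
  have h4 := Subgroup.coe_mul_of_left_le_normalizer_right _ _ h3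
  have h5 : (Subgroup.zpowers n : Set D.W).Finite := by
    rw [finite_zpowers]
    exact isOfFinOrder_iff_pow_eq_one.mpr hk
  have h6 : (D.par J : Set D.W).Finite := Set.toFinite _
  have h7 : ((Subgroup.zpowers n ⊔ D.par J : Subgroup D.W) : Set D.W).Finite := by
    rw [h4]
    exact h5.mul h6
  exact h7

end YJ5

open YJ5 LSX in
theorem yj5_thm : Stmt_BAS → Stmt_SGN → Stmt_PAR → Stmt_RNK → Stmt_PCL → Stmt_FPR → Stmt_NST →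
    Stmt_NRM → Stmt_YJ1 → Stmt_VX1 → Stmt_VX2 → Stmt_VX3 → Stmt_YJ5 := by
  intro hB hS hP hR hC hF _ hN hY h1 h2 h3 D J hJ n hn hk
  classical
  obtain ⟨hvx, hact, hact1, hactm, hmem, hmem', hMn, _, hng, _, _⟩ := h1 D
  obtain ⟨sg1, sg2, _⟩ := hS D
  obtain ⟨_, _, _, _, hBi, _, _, hrt, hrn, _⟩ := hB D
  have hfin := finite_sup hN hJ hn hk
  obtain ⟨g, K, hgK, hKf⟩ := (hC D (Subgroup.zpowers n ⊔ D.par J)).2 hfin
  have hnF : n ∈ D.cp g K := hgK (Subgroup.mem_sup_left (Subgroup.mem_zpowers n))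
  obtain ⟨k, hkK, hkn⟩ := hnF
  have hkn' : g * k * g⁻¹ = n := hkn
  -- the roots of `g K`
  let Φ : Set D.V := {φ | φ ∈ D.Rt ∧ D.In K (D.ρ g⁻¹ φ)}
  obtain ⟨fK1, fK2⟩ := hF D K hKf
  obtain ⟨fJ1, fJ2⟩ := hF D J hJ
  have hΦfin : Φ.Finite := by
    refine (fK1.image (D.ρ g)).subset ?_
    intro φ hφ
    exact ⟨D.ρ g⁻¹ φ, ⟨hrt φ hφ.1 g⁻¹, hφ.2⟩, ρ_inv' g φ⟩
  have hΦneg : ∀ φ ∈ Φ, -φ ∈ Φ := by
    intro φ hφ
    refine ⟨hrn φ hφ.1, ?_⟩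
    rw [map_neg]
    exact In_neg hφ.2
  have hΦB : ∀ φ ∈ Φ, ∀ ψ ∈ Φ, ψ ≠ φ → ψ ≠ -φ → |D.B φ ψ| < 1 := by
    intro φ hφ ψ hψ e1 e2
    rw [← hBi g⁻¹ φ ψ]
    refine fK2 _ (hrt φ hφ.1 g⁻¹) _ (hrt ψ hψ.1 g⁻¹) hφ.2 hψ.2 ?_ ?_
    · intro h
      apply e1
      have := congrArg (D.ρ g) h
      rwa [ρ_inv', ρ_inv'] at this
    · intro h
      apply e2
      have := congrArg (D.ρ g) h
      rwa [map_neg, ρ_inv', ρ_inv'] at this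
  -- the roots of `J` are in `Φ`
  have hJK : D.cp 1 J ≤ D.cp g K := by
    intro w hw
    obtain ⟨j, hj, hjw⟩ := hw
    have hjw' : 1 * j * 1⁻¹ = w := hjw
    rw [inv_one, mul_one, one_mul] at hjw'
    rw [← hjw']
    exact hgK (Subgroup.mem_sup_right hj)
  have hJΦ : ∀ φ ∈ D.Rt, D.In J φ → φ ∈ Φ := by
    intro φ hφ hJφ
    refine ⟨hφ, ?_⟩
    have := (hR D 1 g J K hJK).2.2 φ hJφ
    rwa [mul_one] at this
  -- `n` and its inverse preserve `Φ`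
  have hnΦ : ∀ w ∈ D.cp g K, ∀ φ ∈ Φ, D.ρ w φ ∈ Φ := by
    rintro w ⟨k, hk, hkw⟩ φ hφ
    have hkw' : g * k * g⁻¹ = w := hkw
    refine ⟨hrt φ hφ.1 w, ?_⟩
    rw [← ρ_mul, ← hkw']
    have e1 : g⁻¹ * (g * k * g⁻¹) = k * g⁻¹ := by group
    rw [e1, ρ_mul]
    exact In_par hP hk hφ.2
  have hnin : n ∈ D.cp g K := ⟨k, hkK, hkn⟩
  -- the vertex
  have hx0 : D.Vx (D.act g D.Ps) := hact _ hvx g
  have hm0 : ∀ φ ∈ Φ, φ ∈ D.act g D.Ps → D.Mn (D.act g D.Ps) φ := by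
    intro φ hφ hφx
    have e1 := (hmem' g D.Ps φ).mp hφx
    have e2 := (hY D K hKf).1.2 _ e1 hφ.2
    have e3 := (hMn D.Ps hvx g _).mp e2
    rwa [ρ_inv'] at e3
  let T : Finset D.V := (hΦfin.subset (Set.sep_subset Φ fun φ =>
    D.In J φ ∧ φ ∈ D.act g D.Ps ∧ φ ∉ D.Ps)).toFinset
  have hTmem : ∀ φ, φ ∈ T ↔ φ ∈ Φ ∧ D.In J φ ∧ φ ∈ D.act g D.Ps ∧ φ ∉ D.Ps := by
    intro φ
    exact Set.Finite.mem_toFinset _
  obtain ⟨x, hx1, hx2, hx3, hx4, hx5⟩ := flips h1 h2 h3 Φ hΦB hΦneg (D.act g D.Ps) hx0 hm0 T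
    (fun φ hφ => ⟨((hTmem φ).mp hφ).1, ((hTmem φ).mp hφ).2.2.1⟩)
  -- the positive roots of `J` are in `x`
  have hJx : ∀ φ ∈ D.Ps, D.In J φ → φ ∈ x := by
    intro φ hφ hJφ
    have e0 := hJΦ φ hφ.1 hJφ
    rcases hx0.tot φ hφ.1 with h | h
    · exact hx5 φ e0 h (fun h' => ((hTmem φ).mp h').2.2.2 hφ)
    · have e1 : -φ ∈ T := by
        rw [hTmem]
        exact ⟨hΦneg φ e0, In_neg hJφ, h, sg2 φ hφ⟩
      have e2 := hx4 _ e1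
      rwa [neg_neg] at e2
  have hYJ : D.YJ J x := ⟨hx1, fun φ hφ hJφ => hx2 φ (hJΦ φ hφ.1 hJφ) (hJx φ hφ hJφ)⟩
  -- a root of `J` in `x` is positive
  have hJx' : ∀ φ ∈ x, D.In J φ → φ ∈ D.Ps := by
    intro φ hφ hJφ
    rcases sg1 φ (hx1.sub hφ) with h | h
    · exact h
    · exact absurd (hJx (-φ) h (In_neg hJφ)) (hng x hx1 φ hφ)
  have hNrt : ∀ w ∈ D.NJ J, ∀ φ ∈ D.Rt, D.In J φ → D.In J (D.ρ w φ) :=
    fun w hw φ hφ hJφ => ((hN D J).2.2.2.2.2.2 w hw φ hφ hJφ).2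
  have hninv := nj_inv hn
  refine ⟨x, {ψ | ψ ∈ x ∧ ψ ∈ Φ ∧ ¬ D.In J ψ}, hYJ, hΦfin.subset (fun ψ h => h.2.1),
    fun ψ h => ⟨hx2 ψ h.2.1 h.1, h.2.2⟩, ?_, ?_, ?_, ?_⟩
  · intro ψ hψ χ hχ hne
    refine hΦB ψ hψ.2.1 χ hχ.2.1 hne.symm ?_
    intro h
    have := hχ.1
    rw [h] at this
    exact hng x hx1 ψ hψ.1 this
  · intro ψ hψ φ hφ hJφ
    refine hΦB ψ hψ.2.1 φ (hJΦ φ hφ.1 hJφ) ?_ ?_
    · intro h
      rw [h] at hJφ
      exact hψ.2.2 hJφ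
    · intro h
      rw [h] at hJφ
      exact hψ.2.2 (In_neg_iff.mp hJφ)
  · intro ψ hψ
    have e1 : D.ρ n ψ ∈ Φ := hnΦ n hnin ψ hψ.2.1
    have e2 : ¬ D.In J (D.ρ n ψ) := by
      intro h
      have := hNrt n⁻¹ hninv _ e1.1 h
      rw [ρ_inv] at this
      exact hψ.2.2 this
    rcases hx1.tot _ e1.1 with h | h
    · exact Or.inl ⟨h, e1, e2⟩
    · exact Or.inr ⟨h, hΦneg _ e1, fun h' => e2 (In_neg_iff.mp h')⟩
  · intro ψ hψ hψn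
    have hψn' : D.ρ n⁻¹ ψ ∉ x := fun h => hψn ((hmem' n x ψ).mpr h)
    have hψR : ψ ∈ D.Rt := hx1.sub hψ
    have e1 : ¬ D.In J ψ := by
      intro hJψ
      have p1 := hJx' ψ hψ hJψ
      have p2 := (hninv ψ).mp ⟨p1, hJψ⟩
      exact hψn' (hJx _ p2.1 p2.2)
    refine ⟨hψ, ?_, e1⟩
    by_contra hψΦ
    have p1 : ψ ∈ D.act g D.Ps := (hx3 ψ hψΦ).mp hψ
    have p2 : D.ρ g⁻¹ ψ ∈ D.Ps := (hmem' g D.Ps ψ).mp p1
    have p3 : ¬ D.In K (D.ρ g⁻¹ ψ) := fun h => hψΦ ⟨hψR, h⟩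
    have p4 := (hP D K).2.2.2.2.2 k⁻¹ ((D.par K).inv_mem hkK) _ p2 p3
    have p5 : D.ρ g⁻¹ (D.ρ n⁻¹ ψ) = D.ρ k⁻¹ (D.ρ g⁻¹ ψ) := by
      rw [← ρ_mul, ← ρ_mul, ← hkn']
      congr 2
      group
    have p6 : D.ρ n⁻¹ ψ ∉ Φ := by
      intro h
      have := hnΦ n hnin _ h
      rw [ρ_inv'] at this
      exact hψΦ this
    rw [hx3 _ p6, hmem' g D.Ps, p5] at hψn'
    exact hψn' p4

end Pool.CS
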