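import Pool.Agent.Work.MP_64ea0f_cs.InterfaceC

set_option autoImplicit false

/-! # C_FOL: following a path -/

namespace Pool.CS

theorem c_fol_thm : Stmt_C_FOL := by
  intro Λ G H M _ L hL D D' p hp
  induction hp with
  | nil D h =>
    intro x hx _
    rw [wp_nil, LS.r_one]
    exact ⟨hx, rfl⟩
  | cons D i w D' h hi hp ih =>
    intro x hx hok
    subst hx
    rw [LS.r_wp_cons, hL, H.step_flip M x i hi (hok _ List.mem_cons_self)]
    exact ih (⟨symmDiff x.1.1 {i}, hi⟩, x.2) rfl (fun t ht => hok t (List.mem_cons_of_mem _ ht))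

end Pool.CS
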