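import Pool.Agent.Work.MP_64ea0f_cs.InterfaceC

set_option autoImplicit false

/-! # C_PTH: paths and symmetric differences -/

namespace Pool.CS

theorem h31_symmDiff_sub (D D' : Set ℤ) (i : ℤ) :
    symmDiff D D' ⊆ insert i (symmDiff (symmDiff D {i}) D') := by
  intro l hl
  by_cases h : l = i
  · exact Set.mem_insert_iff.mpr (Or.inl h)
  · refine Set.mem_insert_of_mem _ ?_
    have h1 : l ∈ symmDiff D {i} ↔ l ∈ D := Per.mem_flip_ne h
    rw [Set.mem_symmDiff] at hl ⊢
    rw [h1]
    exact hl

theorem c_pth_thm : Stmt_C_PTH := by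
  intro Λ G H D D' p hp
  induction hp with
  | nil D h =>
    have h0 : symmDiff D D = ∅ := symmDiff_self D
    rw [h0]
    refine ⟨h, h, Set.finite_empty, ?_, ?_, ?_⟩
    · rw [Set.ncard_empty]
      exact Nat.zero_le _
    · intro i hi
      exact absurd hi (Set.notMem_empty i)
    · intro t ht
      exact absurd ht List.not_mem_nil
  | cons D i w D' h hi hp ih =>
    obtain ⟨_, h2, h3, h4, h5, h6⟩ := ih
    have hsub := h31_symmDiff_sub D D' i
    have hfin : (insert i (symmDiff (symmDiff D {i}) D')).Finite := h3.insert i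
    refine ⟨h, h2, hfin.subset hsub, ?_, ?_, ?_⟩
    · rw [List.length_cons]
      exact le_trans (Set.ncard_le_ncard hsub hfin)
        (le_trans (Set.ncard_insert_le _ _) (Nat.succ_le_succ h4))
    · intro l hl
      rcases Set.mem_insert_iff.mp (hsub hl) with h7 | h7
      · rw [h7]
        exact List.mem_cons_self
      · exact List.mem_cons_of_mem _ (h5 l h7)
    · intro t ht
      rcases List.mem_cons.mp ht with h7 | h7
      · rw [h7]
        exact Set.mem_range_self i
      · exact h6 t h7

end Pool.CS
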