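import Pool.Agent.Work.MP_64ea0f_cs.InterfaceE
import Pool.Agent.Work.MP_64ea0f_cs_helper53.LSX
import Pool.Agent.Work.MP_64ea0f_cs_helper91.BAS

set_option autoImplicit false

/-! # YJ4: the restricted flip action on `YJ J` -/

namespace Pool.CS

namespace YJ4

open LSX

variable {D : Rd} {H : Subgroup D.W} {J : Set D.S}

/-- the label `a` moves the vertex `x` of `YJ J` by the flip of `φ` -/
def Mv (H : Subgroup D.W) (J : Set D.S) (a : D.Lb H) (x : D.YT J) (φ : D.V) : Prop :=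
  D.Mn x.1 φ ∧ φ ∈ a.1 ∧ D.YJ J (D.fl x.1 φ)

open Classical in
/-- the restricted flip -/
noncomputable def tau (a : D.Lb H) (x : D.YT J) : D.YT J :=
  if h : ∃ φ, Mv H J a x φ then ⟨D.fl x.1 h.choose, h.choose_spec.2.2⟩ else x

theorem tau_move (hD : D.Deep H) (a : D.Lb H) (x : D.YT J) {φ : D.V}
    (h : Mv H J a x φ) : (tau a x).1 = D.fl x.1 φ := by
  have hex : ∃ φ, Mv H J a x φ := ⟨φ, h⟩
  have e1 : tau a x = ⟨D.fl x.1 hex.choose, hex.choose_spec.2.2⟩ := dif_pos hex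
  have e2 : (tau a x).1 = D.fl x.1 hex.choose := congrArg Subtype.val e1
  rw [e2, uniq hD x.2.1 a h.1 h.2.1 hex.choose_spec.1 hex.choose_spec.2.1]

theorem tau_fix (a : D.Lb H) (x : D.YT J) (h : ¬ ∃ φ, Mv H J a x φ) : tau a x = x :=
  dif_neg h

/-- the flip of `ψ` stays in `YJ J` also after another flip -/
theorem yj_flip (h1 : Stmt_YJ1) (hJ : Finite (D.par J)) {x x' : Set D.V} (hx : D.YJ J x)
    (hx' : D.YJ J x') {ψ : D.V} (hm : D.Mn x ψ) (hm' : D.Mn x' ψ) (h : D.YJ J (D.fl x ψ)) :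
    D.YJ J (D.fl x' ψ) :=
  ((h1 D J hJ).2.2.2 x' hx' ψ hm').mpr (((h1 D J hJ).2.2.2 x hx ψ hm).mp h)

theorem com_aux (h2 : Stmt_VX2) (h3 : Stmt_VX3) (hY : Stmt_YJ1) (hD : D.Deep H)
    (hJ : Finite (D.par J)) {a b : D.Lb H} (hab : (D.lg H).Adj a b) (x : D.YT J) {φ : D.V}
    (h : Mv H J a x φ) (hb : ¬ ∃ ψ, Mv H J b x ψ) :
    tau a (tau b x) = tau b (tau a x) := by
  rw [tau_fix b x hb]
  symm
  apply tau_fix
  rintro ⟨ψ, hψ, hψb, hψY⟩
  have e1 := tau_move hD a x h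
  rw [e1] at hψ hψY
  obtain ⟨v1, v2, v3, v4, v5⟩ := h2 D x.1 x.2.1 φ h.1
  have hc := cross bas_thm hD v1 hab v2 (Lb_neg a h.2.1) hψ hψb
  rw [B_neg_left bas_thm, abs_neg] at hc
  have hne : ψ ≠ -φ := (Lb_ne hab.1 (Lb_neg a h.2.1) hψb).symm
  have hm := (h3 D x.1 x.2.1 φ ψ).2.2.1 h.1 hψ hne hc
  exact hb ⟨ψ, hm, hψb, yj_flip hY hJ h.2.2 x.2 hψ hm hψY⟩

theorem nj_inv {n : D.W} (hn : n ∈ D.NJ J) : n⁻¹ ∈ D.NJ J := by
  intro φ
  have h := hn (D.ρ n⁻¹ φ)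
  rw [ρ_inv'] at h
  exact h.symm

end YJ4

open YJ4 LSX in
theorem yj4_thm : Stmt_VX1 → Stmt_VX2 → Stmt_VX3 → Stmt_LSX → Stmt_YJ1 → Stmt_YJ4 := by
  intro h1 h2 h3 _ hY D H hD J hJ
  obtain ⟨hY1, hY2, hY3, hY4⟩ := hY D J hJ
  obtain ⟨_, _, hact1, hactm, hmem, hmem', hMn, _, _, _, hsub⟩ := h1 D
  refine ⟨⟨⟨tau, ?_, ?_⟩, ?_⟩, ?_⟩
  · intro a x
    by_cases h : ∃ φ, Mv H J a x φ
    · obtain ⟨φ, hφ⟩ := h
      have e1 := tau_move hD a x hφ
      obtain ⟨v1, v2, v3, v4, v5⟩ := h2 D x.1 x.2.1 φ hφ.1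
      have m2 : Mv H J a (tau a x) (-φ) := by
        refine ⟨?_, Lb_neg a hφ.2.1, ?_⟩
        · rw [e1]
          exact v2
        · rw [e1, v3]
          exact x.2
      apply Subtype.ext
      rw [tau_move hD a (tau a x) m2, e1, v3]
    · rw [tau_fix a x h, tau_fix a x h]
  · intro a b hab x
    by_cases ha : ∃ φ, Mv H J a x φ
    · obtain ⟨φ, hφ⟩ := ha
      by_cases hb : ∃ ψ, Mv H J b x ψ
      · obtain ⟨ψ, hψ⟩ := hb
        have hc := cross bas_thm hD x.2.1 hab hφ.1 hφ.2.1 hψ.1 hψ.2.1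
        have hc' : |D.B ψ φ| < 1 := by rw [(bas_thm D).1]; exact hc
        have e1 := tau_move hD a x hφ
        have e2 := tau_move hD b x hψ
        have k1 := (h3 D x.1 x.2.1 φ ψ).2.1 hφ.1 hψ.1 hc
        have k2 := (h3 D x.1 x.2.1 ψ φ).2.1 hψ.1 hφ.1 hc'
        have m1 : Mv H J a (tau b x) φ := by
          refine ⟨?_, hφ.2.1, ?_⟩
          · rw [e2]; exact k2.1
          · rw [e2]
            exact yj_flip hY hJ x.2 hψ.2.2 hφ.1 k2.1 hφ.2.2
        have m2 : Mv H J b (tau a x) ψ := by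
          refine ⟨?_, hψ.2.1, ?_⟩
          · rw [e1]; exact k1.1
          · rw [e1]
            exact yj_flip hY hJ x.2 hφ.2.2 hψ.1 k1.1 hψ.2.2
        apply Subtype.ext
        rw [tau_move hD a _ m1, tau_move hD b _ m2, e1, e2, k1.2]
      · exact com_aux h2 h3 hY hD hJ hab x hφ hb
    · by_cases hb : ∃ ψ, Mv H J b x ψ
      · obtain ⟨ψ, hψ⟩ := hb
        exact (com_aux h2 h3 hY hD hJ hab.symm x hψ ha).symm
      · rw [tau_fix b x hb, tau_fix a x ha, tau_fix b x hb]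
  · intro a x
    exact ⟨fun φ hφ hφa hφY => tau_move hD a x ⟨hφ, hφa, hφY⟩,
      fun h => tau_fix a x (fun ⟨φ, hφ⟩ => h φ hφ.1 hφ.2.1 hφ.2.2)⟩
  · intro L hL
    refine ⟨?_, ?_⟩
    · intro n hn a a' haa' x x' hx'
      by_cases ha : ∃ φ, Mv H J a x φ
      · obtain ⟨φ, hφ⟩ := ha
        have m2 : D.Mn x'.1 (D.ρ n φ) := by
          rw [hx']
          exact (hMn x.1 x.2.1 n φ).1 hφ.1
        have m3 : D.ρ n φ ∈ a'.1 := by
          rw [haa']
          exact Set.mem_image_of_mem _ hφ.2.1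
        have m4 : D.fl x'.1 (D.ρ n φ) = D.act n (D.fl x.1 φ) := by
          rw [hx']
          exact ((h2 D x.1 x.2.1 φ hφ.1).2.2.2.2 n).symm
        have m5 : D.YJ J (D.fl x'.1 (D.ρ n φ)) := by
          rw [m4]
          exact hY2 n hn _ hφ.2.2
        rw [(hL a x).1 φ hφ.1 hφ.2.1 hφ.2.2, (hL a' x').1 _ m2 m3 m5, m4]
      · have ha2 : ∀ φ, D.Mn x.1 φ → φ ∈ a.1 → ¬ D.YJ J (D.fl x.1 φ) :=
          fun φ q1 q2 q3 => ha ⟨φ, q1, q2, q3⟩
        have ha3 : ∀ ψ, D.Mn x'.1 ψ → ψ ∈ a'.1 → ¬ D.YJ J (D.fl x'.1 ψ) := by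
          intro ψ q1 q2 q3
          rw [haa'] at q2
          obtain ⟨φ, hφa, rfl⟩ := q2
          rw [hx'] at q1 q3
          have q4 : D.Mn x.1 φ := (hMn x.1 x.2.1 n φ).2 q1
          rw [← (h2 D x.1 x.2.1 φ q4).2.2.2.2 n] at q3
          have q5 := hY2 n⁻¹ (nj_inv hn) _ q3
          rw [← hactm, inv_mul_cancel, hact1] at q5
          exact ha2 φ q4 hφa q5
        rw [(hL a x).2 ha2, (hL a' x').2 ha3, hx']
    · have key : ∀ (k : ℕ) (x y : D.YT J), (x.1 \ y.1).ncard = k → ∃ γ, L.r x γ = y := by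
        intro k
        induction k with
        | zero =>
          intro x y hk
          refine ⟨1, ?_⟩
          rw [LS.r_one]
          apply Subtype.ext
          obtain ⟨f1, _, f3⟩ := hsub x.1 x.2.1 y.1 y.2.1
          exact f3 (Set.sdiff_eq_empty.mp ((Set.ncard_eq_zero f1).mp hk))
        | succ k ih =>
          intro x y hk
          have hne : (x.1 \ y.1).Nonempty := by
            rw [Set.nonempty_iff_ne_empty]
            intro h0
            rw [h0, Set.ncard_empty] at hk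
            exact absurd hk (Nat.succ_ne_zero k).symm
          obtain ⟨φ, hφx, hφy⟩ := hne
          obtain ⟨ψ, hψ, _, hψY, hcard⟩ := hY3 x.1 x.2 y.1 y.2 φ hφx hφy
          have hR : ψ ∈ D.Rt := x.2.1.sub hψ.1
          let a : D.Lb H := ⟨D.lab H ψ, ψ, hR, rfl⟩
          have e1 := (hL a x).1 ψ hψ (lab_self ψ) hψY
          obtain ⟨γ, hγ⟩ := ih (L.τ a x) y (by rw [e1]; omega)
          exact ⟨rg (D.lg H) a * γ, by rw [LS.r_mul, LS.r_rg]; exact hγ⟩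
      intro x y
      exact key _ x y rfl

end Pool.CS
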